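import Pool.Agent.Q151.CrownF.Count
import Pool.Agent.Q151.CrownF.LC

/-!
# MP_6e91db_co: the f-vector of the order polytope of the face lattice of a polygon is log-concave

For every `n ≥ 3` the f-polynomial of the order polytope of the face lattice of the `n`-gon is
`(1+X)^4 + X (1+X)^(n+2) ∏_{k<n} (X + 3 - 2 cos(2πk/n))`, and its coefficients are log-concave.
-/

namespace Pool.Agent.Results.MP_6e91db_co.LogConcave

open Finset Polynomial Q151.CrownF

/-- The f-vector of `K`, indexed from `0`: `fvec K 0 = f_{-1} = 1` (the empty face) and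
`fvec K (j+1) = f_j` is the number of `j`-dimensional faces, where the nonempty faces of `K` are
the nonempty sets of the form `{x ∈ K | ∀ y ∈ K, l y ≤ l x}` with `l` a linear functional
(`K` itself is the case `l = 0`) and the dimension is that of the affine hull. -/
noncomputable def fvec {V : Type*} [AddCommGroup V] [Module ℝ V] [TopologicalSpace V]
    (K : Set V) : ℕ → ℕ
  | 0 => 1
  | j + 1 => Set.ncard {F : Set V | F.Nonempty ∧ IsExposed ℝ K F ∧
      Module.finrank ℝ (vectorSpan ℝ F) = j}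

/-- the second factor -/
noncomputable def HH (n : ℕ) : ℝ[X] := (X + C 1) ^ (n + 2) * ∏ k ∈ range n, (X + C (rho n k))

theorem NL_pow {d : ℕ} {p : ℝ[X]} (h : NL d p) (m : ℕ) : NL (m + d) ((X + C 1) ^ m * p) := by
  have := NL_prod (range m) (fun _ => (1 : ℝ)) (fun _ => le_rfl) h
  rwa [Finset.prod_const, Finset.card_range] at this

theorem NL_prodrho (n : ℕ) : NL n (∏ k ∈ range n, (X + C (rho n k))) := by
  have := NL_prod (range n) (rho n) (rho_ge n) NL_one
  rwa [Finset.card_range, mul_one, add_zero] at this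

theorem NL_HH (n : ℕ) : NL (n + 2 + n) (HH n) := NL_pow (NL_prodrho n) (n + 2)

/-- bounds for the first coefficients -/
theorem HH_bounds (n : ℕ) (hn : 3 ≤ n) :
    (6 * n - 2 : ℝ) ≤ (HH n).coeff 0 ∧ (HH n).coeff 0 ≤ (HH n).coeff 1 ∧
    (HH n).coeff 1 ≤ (HH n).coeff 2 ∧ 16 ≤ (HH n).coeff 3 := by
  have e : HH n = (X + C 1) ^ 5 * ((X + C 1) ^ (n - 3) * ∏ k ∈ range n, (X + C (rho n k))) := by
    rw [HH, ← mul_assoc, ← pow_add]
    congr 2
    omega
  set G := (X + C 1) ^ (n - 3) * ∏ k ∈ range n, (X + C (rho n k)) with hG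
  have hNL : NL (n - 3 + n) G := NL_pow (NL_prodrho n) (n - 3)
  have e5 : (X + C (1 : ℝ)) ^ 5 * G = G + C 5 * (X ^ 1 * G) + C 10 * (X ^ 2 * G) +
      C 10 * (X ^ 3 * G) + C 5 * (X ^ 4 * G) + X ^ 5 * G := by
    simp only [map_one, map_ofNat]
    ring
  have c0 : (HH n).coeff 0 = G.coeff 0 := by
    rw [e, e5]
    simp [coeff_X_pow_mul']
  have c1 : (HH n).coeff 1 = G.coeff 1 + 5 * G.coeff 0 := by
    rw [e, e5]
    simp [coeff_X_pow_mul']
  have c2 : (HH n).coeff 2 = G.coeff 2 + 5 * G.coeff 1 + 10 * G.coeff 0 := by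
    rw [e, e5]
    simp [coeff_X_pow_mul']
  have c3 : (HH n).coeff 3 = G.coeff 3 + 5 * G.coeff 2 + 10 * G.coeff 1 + 10 * G.coeff 0 := by
    rw [e, e5]
    simp [coeff_X_pow_mul']
  have g0 : G.coeff 0 = (LL n).eval 0 - 2 := by
    rw [hG, coeff_zero_eq_eval_zero, eval_mul, ← LL_factor n (by omega)]
    simp
  have hge := LL_zero_ge n hn
  have hn' : (3 : ℝ) ≤ n := by exact_mod_cast hn
  have a0 := hNL.nonneg 0
  have a1 := hNL.nonneg 1
  have a2 := hNL.nonneg 2
  have a3 := hNL.nonneg 3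
  rw [c0, c1, c2, c3]
  refine ⟨by linarith, by linarith, by linarith, by linarith⟩

/-- the f-polynomial -/
theorem fpoly (n : ℕ) [NeZero n] :
    1 + X * gen n = (1 + X) ^ 4 + X * HH n := by
  rw [gen_eq, LL_factor n (Nat.pos_of_ne_zero (NeZero.ne n)), HH]
  simp only [map_one]
  ring

theorem fvec_eq (n : ℕ) [NeZero n] (j : ℕ) :
    (fvec (orderPolytope (Face n)) j : ℝ) = ((1 + X) ^ 4 + X * HH n : ℝ[X]).coeff j := by
  rw [← fpoly]
  cases j with
  | zero => simp [fvec]
  | succ j =>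
    rw [coeff_add, coeff_X_mul, gen_coeff, Polynomial.coeff_one, if_neg (by omega), zero_add]
    rfl

theorem coeff_four (j : ℕ) : ((1 + X) ^ 4 : ℝ[X]).coeff j = (Nat.choose 4 j : ℝ) := by
  rw [coeff_one_add_X_pow]

theorem logc (n : ℕ) (hn : 3 ≤ n) (P : ℝ[X]) (hP : P = (1 + X) ^ 4 + X * HH n) (j : ℕ) :
    P.coeff j * P.coeff (j + 2) ≤ P.coeff (j + 1) ^ 2 := by
  have cs : ∀ i, P.coeff (i + 1) = (Nat.choose 4 (i + 1) : ℝ) + (HH n).coeff i := by
    intro i
    rw [hP, coeff_add, coeff_four, coeff_X_mul]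
  have c0 : P.coeff 0 = 1 := by
    rw [hP, coeff_add, coeff_four, coeff_X_mul_zero]
    norm_num
  obtain ⟨b0, b1, b2, b3⟩ := HH_bounds n hn
  have hNL := NL_HH n
  have N := hNL.newton
  have hone := hNL.one
  have hn' : (3 : ℝ) ≤ n := by exact_mod_cast hn
  have h0 := hNL.nonneg
  match j with
  | 0 =>
    rw [c0, cs 1, cs 0]
    have e1 : (Nat.choose 4 (1 + 1) : ℝ) = 6 := by norm_num [Nat.choose]
    have e2 : (Nat.choose 4 (0 + 1) : ℝ) = 4 := by norm_num [Nat.choose]
    rw [e1, e2]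
    push_cast at hone
    nlinarith [h0 0]
  | 1 =>
    rw [cs 0, cs 1, cs 2]
    have e1 : (Nat.choose 4 (1 + 1) : ℝ) = 6 := by norm_num [Nat.choose]
    have e2 : (Nat.choose 4 (0 + 1) : ℝ) = 4 := by norm_num [Nat.choose]
    have e3 : (Nat.choose 4 (2 + 1) : ℝ) = 4 := by norm_num [Nat.choose]
    rw [e1, e2, e3]
    have := N 0
    norm_num at this
    have h16 : 16 ≤ (HH n).coeff 0 := by linarith
    have h17 := mul_le_mul_of_nonneg_right h16 (h0 2)
    nlinarith [h0 0, h0 1, h0 2]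
  | 2 =>
    rw [cs 1, cs 2, cs 3]
    have e1 : (Nat.choose 4 (1 + 1) : ℝ) = 6 := by norm_num [Nat.choose]
    have e2 : (Nat.choose 4 (3 + 1) : ℝ) = 1 := by norm_num [Nat.choose]
    have e3 : (Nat.choose 4 (2 + 1) : ℝ) = 4 := by norm_num [Nat.choose]
    rw [e1, e2, e3]
    have := N 1
    norm_num at this
    have h16 : 16 ≤ (HH n).coeff 1 := by linarith
    have h17 := mul_le_mul_of_nonneg_right h16 (h0 3)
    nlinarith [h0 0, h0 1, h0 2]
  | 3 =>
    rw [cs 2, cs 3, cs 4]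
    have e1 : (Nat.choose 4 (4 + 1) : ℝ) = 0 := by norm_num [Nat.choose]
    have e2 : (Nat.choose 4 (3 + 1) : ℝ) = 1 := by norm_num [Nat.choose]
    have e3 : (Nat.choose 4 (2 + 1) : ℝ) = 4 := by norm_num [Nat.choose]
    rw [e1, e2, e3]
    have := N 2
    norm_num at this
    have h16 : 16 ≤ (HH n).coeff 2 := by linarith
    have h17 := mul_le_mul_of_nonneg_right h16 (h0 4)
    nlinarith [h0 3, h0 4, h0 2]
  | 4 =>
    rw [cs 3, cs 4, cs 5]
    have e1 : (Nat.choose 4 (4 + 1) : ℝ) = 0 := by norm_num [Nat.choose]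
    have e2 : (Nat.choose 4 (3 + 1) : ℝ) = 1 := by norm_num [Nat.choose]
    have e3 : (Nat.choose 4 (5 + 1) : ℝ) = 0 := by norm_num [Nat.choose]
    rw [e1, e2, e3]
    have := N 3
    norm_num at this
    have h17 := mul_le_mul_of_nonneg_right b3 (h0 5)
    nlinarith [h0 3, h0 4, h0 5]
  | m + 5 =>
    have k1 : Nat.choose 4 (m + 5) = 0 := Nat.choose_eq_zero_of_lt (by omega)
    have k2 : Nat.choose 4 (m + 5 + 1) = 0 := Nat.choose_eq_zero_of_lt (by omega)
    have k3 : Nat.choose 4 (m + 5 + 1 + 1) = 0 := Nat.choose_eq_zero_of_lt (by omega)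
    have d1 : P.coeff (m + 5) = (HH n).coeff (m + 4) := by
      rw [show m + 5 = (m + 4) + 1 from rfl, cs, show m + 4 + 1 = m + 5 from rfl, k1]; simp
    have d2 : P.coeff (m + 5 + 1) = (HH n).coeff (m + 5) := by rw [cs, k2]; simp
    have d3 : P.coeff (m + 5 + 2) = (HH n).coeff (m + 6) := by
      rw [show m + 5 + 2 = (m + 6) + 1 from rfl, cs, show m + 6 + 1 = m + 5 + 1 + 1 from rfl, k3]
      simp
    rw [d1, d2, d3]
    have h := N (m + 4)
    have hm : (0 : ℝ) ≤ ((m + 4 : ℕ) : ℝ) := Nat.cast_nonneg _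
    have hnn : 0 ≤ (HH n).coeff (m + 4) * (HH n).coeff (m + 4 + 2) := mul_nonneg (h0 _) (h0 _)
    have h2 : (((m + 4 : ℕ) : ℝ) + 1) * ((HH n).coeff (m + 4) * (HH n).coeff (m + 4 + 2)) ≤
        (((m + 4 : ℕ) : ℝ) + 1) * (HH n).coeff (m + 4 + 1) ^ 2 := by nlinarith
    exact le_of_mul_le_mul_left h2 (by positivity)

/-- **Q1 is true.**  For every `n ≥ 3`, the order polytope of the face lattice of the `n`-gon
(dimension `2n+2`) has finitely many faces, its `f`-vector `(f_{-1}, …, f_{2n+2})` is positive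
with `f_{2n+2} = 1` and nothing beyond, it is log-concave, and the `f`-polynomial is
`(1+X)^4 + X (1+X)^(n+2) ∏_{k<n} (X + 3 - 2 cos(2πk/n))`. -/
theorem result (n : ℕ) (hn : 3 ≤ n) :
    (∀ j : ℕ, {F : Set (Face n → ℝ) | F.Nonempty ∧ IsExposed ℝ (orderPolytope (Face n)) F ∧
      Module.finrank ℝ (vectorSpan ℝ F) = j}.Finite) ∧
    (∀ j ≤ 2 * n + 3, 0 < fvec (orderPolytope (Face n)) j) ∧
    (∀ j > 2 * n + 3, fvec (orderPolytope (Face n)) j = 0) ∧
    (∀ j, fvec (orderPolytope (Face n)) j * fvec (orderPolytope (Face n)) (j + 2) ≤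
      fvec (orderPolytope (Face n)) (j + 1) ^ 2) ∧
    (∑ j ∈ range (2 * n + 4), C (fvec (orderPolytope (Face n)) j : ℝ) * X ^ j : ℝ[X]) =
      (1 + X) ^ 4 + X * (1 + X) ^ (n + 2) *
        ∏ k ∈ range n, (X + C (3 - 2 * Real.cos (2 * Real.pi * k / n))) := by
  have : NeZero n := ⟨by omega⟩
  have hP := fvec_eq n
  set P : ℝ[X] := (1 + X) ^ 4 + X * HH n with hPdef
  have hNL := NL_HH n
  have cs : ∀ i, P.coeff (i + 1) = (Nat.choose 4 (i + 1) : ℝ) + (HH n).coeff i := by
    intro i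
    rw [hPdef, coeff_add, coeff_four, coeff_X_mul]
  have hzero : ∀ j > 2 * n + 3, P.coeff j = 0 := by
    intro j hj
    obtain ⟨i, rfl⟩ : ∃ i, j = i + 1 := ⟨j - 1, by omega⟩
    rw [cs, hNL.zero i (by omega), Nat.choose_eq_zero_of_lt (by omega)]
    simp
  refine ⟨?_, ?_, ?_, ?_, ?_⟩
  · intro j
    have h := Pool.Agent.W304.HL.finite_faces (cf n) (df n) j
    rw [← orderPolytope_eq] at h
    exact h
  · intro j hj
    have h1 : (0 : ℝ) < (fvec (orderPolytope (Face n)) j : ℝ) := by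
      rw [hP]
      cases j with
      | zero =>
        rw [hPdef, coeff_add, coeff_four, coeff_X_mul_zero]
        norm_num
      | succ i =>
        rw [cs]
        have := hNL.pos i (by omega)
        positivity
    exact_mod_cast h1
  · intro j hj
    have h1 : (fvec (orderPolytope (Face n)) j : ℝ) = 0 := by rw [hP, hzero j hj]
    exact_mod_cast h1
  · intro j
    have h1 := logc n hn P rfl j
    rw [← hP, ← hP, ← hP] at h1
    exact_mod_cast h1
  · have h1 : (∑ j ∈ range (2 * n + 4), C (fvec (orderPolytope (Face n)) j : ℝ) * X ^ j : ℝ[X]) = P := by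
      have hdeg : P.natDegree < 2 * n + 4 := by
        rw [Nat.lt_succ_iff]
        apply natDegree_le_iff_coeff_eq_zero.2
        intro j hj
        exact hzero j (by omega)
      conv_rhs => rw [P.as_sum_range' (2 * n + 4) hdeg]
      refine Finset.sum_congr rfl fun j _ => ?_
      rw [hP, C_mul_X_pow_eq_monomial]
    rw [h1, hPdef, HH]
    simp only [rho, map_one]
    ring

end Pool.Agent.Results.MP_6e91db_co.LogConcave
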